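import Mathlib

/-!
# Lights Out grids of nullity exactly two

`d (2 * 3 ^ k - 1) = 2` for every `k ≥ 1`.
-/

set_option autoImplicit false

namespace Pool.Agent.Results.MP_222d4b_co.NullityTwo

open Polynomial

/-- Two cells are adjacent if they differ by one in exactly one coordinate. -/
def Adj {n : ℕ} (c c' : Fin n × Fin n) : Prop :=
  (c.1 = c'.1 ∧ ((c.2 : ℕ) + 1 = c'.2 ∨ (c'.2 : ℕ) + 1 = c.2)) ∨
    (c.2 = c'.2 ∧ ((c.1 : ℕ) + 1 = c'.1 ∨ (c'.1 : ℕ) + 1 = c.1))

open Classical in
/-- The Lights Out matrix. -/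
noncomputable def A (n : ℕ) : Matrix (Fin n × Fin n) (Fin n × Fin n) (ZMod 2) :=
  fun c c' => if c = c' ∨ Adj c c' then 1 else 0

/-- The nullity of the `n × n` grid. -/
noncomputable def d (n : ℕ) : ℕ := Module.finrank (ZMod 2) (LinearMap.ker (A n).mulVecLin)

section NumberTheory

theorem two_pow (s : ℕ) : ∃ c : ℕ, 2 ^ 3 ^ s + 1 = 3 ^ (s + 1) * c ∧ ¬ 3 ∣ c := by
  induction s with
  | zero => exact ⟨1, by norm_num, by norm_num⟩
  | succ s ih =>
    obtain ⟨c, hc, h3⟩ := ih
    have hz : (2 : ℤ) ^ 3 ^ s + 1 = 3 ^ (s + 1) * c := by exact_mod_cast hc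
    set a : ℤ := (2 : ℤ) ^ 3 ^ s with ha
    have h1 : (2 : ℤ) ^ 3 ^ (s + 1) + 1 =
        3 ^ (s + 2) * (c * (3 ^ (2 * s + 1) * c ^ 2 - 3 ^ (s + 1) * c + 1)) := by
      have h2 : (2 : ℤ) ^ 3 ^ (s + 1) = a ^ 3 := by
        rw [ha, ← pow_mul, pow_succ 3 s]
      have h4 : a = 3 ^ (s + 1) * c - 1 := by linarith
      rw [h2, h4]
      ring
    set e : ℤ := c * (3 ^ (2 * s + 1) * c ^ 2 - 3 ^ (s + 1) * c + 1) with he
    have hpos : 0 < e := by
      by_contra h
      push Not at h
      have h5 : (3 : ℤ) ^ (s + 2) * e ≤ 0 := mul_nonpos_of_nonneg_of_nonpos (by positivity) h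
      rw [← h1] at h5
      have : (0 : ℤ) < 2 ^ 3 ^ (s + 1) := by positivity
      linarith
    obtain ⟨c', hc'⟩ := Int.eq_ofNat_of_zero_le hpos.le
    refine ⟨c', ?_, ?_⟩
    · rw [hc'] at h1
      exact_mod_cast h1
    · intro h5
      apply h3
      have h6 : (3 : ℤ) ∣ e := by
        rw [hc']
        exact_mod_cast h5
      have h7 : e = c + 3 * (c * (3 ^ (2 * s) * c ^ 2 - 3 ^ s * c)) := by
        rw [he]; ring
      rw [h7] at h6
      have h8 : (3 : ℤ) ∣ c := by
        have := dvd_sub h6 (Dvd.intro _ rfl : (3 : ℤ) ∣ 3 * (c * (3 ^ (2 * s) * c ^ 2 - 3 ^ s * c)))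
        simpa using this
      exact_mod_cast h8

variable {L : Type*} [Field L] [CharP L 2]

theorem two_eq_zero : (2 : L) = 0 := by
  have := CharP.cast_eq_zero L 2
  exact_mod_cast this

theorem eq_of_add_eq_zero {a b : L} (h : a + b = 0) : a = b := by
  have h2 : (2 : L) = 0 := two_eq_zero
  linear_combination h - b * h2

/-- The trace-like sum. -/
def tr (m : ℕ) (u : L) : L := u + u ^ 2 ^ m + (u ^ 2 ^ m) ^ 2 ^ m

theorem tr_add (m : ℕ) (u v : L) : tr m (u + v) = tr m u + tr m v := by
  unfold tr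
  rw [add_pow_char_pow, add_pow_char_pow]
  ring

omit [CharP L 2] in
theorem cube_root {w : L} (h3 : w ^ 3 = 1) (h1 : w ≠ 1) : 1 + w + w⁻¹ = 0 := by
  have hw : w ≠ 0 := by
    rintro rfl
    norm_num at h3
  have h4 : (w - 1) * (w ^ 2 + w + 1) = 0 := by linear_combination h3
  rcases mul_eq_zero.1 h4 with h5 | h5
  · exact absurd (sub_eq_zero.1 h5) h1
  · field_simp
    linear_combination h5

/-- The top level. -/
theorem tr_top {y : L} {i c : ℕ} (hc : 2 ^ 3 ^ i + 1 = 3 ^ (i + 1) * c) (h3 : ¬ 3 ∣ c)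
    (hy : y ^ 3 ^ (i + 2) = 1) (hy' : y ^ 3 ^ (i + 1) ≠ 1) : tr (3 ^ i) (y + y⁻¹) = 0 := by
  have hy0 : y ≠ 0 := by
    rintro rfl
    rw [zero_pow (by positivity)] at hy
    exact zero_ne_one hy
  set ω := y ^ 3 ^ (i + 1) with hω
  have hω3 : ω ^ 3 = 1 := by rw [hω, ← pow_mul, ← pow_succ]; exact hy
  set w := ω ^ c with hw
  have hw3 : w ^ 3 = 1 := by rw [hw, ← pow_mul, mul_comm, pow_mul, hω3, one_pow]
  have hw1 : w ≠ 1 := by
    intro h
    apply hy'
    have h4 : ω ^ (c % 3) = 1 := by
      have h5 : ω ^ c = ω ^ (c % 3) := by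
        conv_lhs => rw [← Nat.div_add_mod c 3, pow_add, pow_mul, hω3, one_pow, one_mul]
      rw [← h5]
      exact h
    have h5 : c % 3 = 1 ∨ c % 3 = 2 := by omega
    rcases h5 with h5 | h5
    · rw [h5, pow_one] at h4
      exact h4
    · rw [h5] at h4
      calc ω = ω * ω ^ 2 := by rw [h4, mul_one]
        _ = ω ^ 3 := by ring
        _ = 1 := hω3
  have hw0 : w ≠ 0 := by
    intro h
    rw [h] at hw3
    norm_num at hw3
  have e1 : y ^ 2 ^ 3 ^ i = y⁻¹ * w := by
    have h5 : y ^ (2 ^ 3 ^ i + 1) = w := by rw [hc, pow_mul]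
    rw [pow_succ] at h5
    field_simp
    exact h5
  have e2 : w ^ 2 ^ 3 ^ i = w⁻¹ := by
    have h5 : w ^ (2 ^ 3 ^ i + 1) = 1 := by
      rw [hc, pow_succ, mul_comm (3 ^ i) 3, mul_assoc, pow_mul, hw3, one_pow]
    rw [pow_succ] at h5
    field_simp
    exact h5
  have e3 : (y⁻¹) ^ 2 ^ 3 ^ i = y * w⁻¹ := by
    rw [inv_pow, e1, mul_inv, inv_inv]
  have e4 : (w⁻¹) ^ 2 ^ 3 ^ i = w := by rw [inv_pow, e2, inv_inv]
  have e5 := cube_root hw3 hw1
  unfold tr
  rw [add_pow_char_pow, e1, e3, add_pow_char_pow, mul_pow, mul_pow, e3, e1, e2, e4]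
  have h2 : (2 : L) = 0 := two_eq_zero
  have e6 : w⁻¹ * w⁻¹ = w := by
    field_simp
    exact hw3.symm
  have e7 : w * w = w⁻¹ := by
    field_simp
    linear_combination hw3
  calc _ = y * (1 + w⁻¹ + w⁻¹ * w⁻¹) + y⁻¹ * (1 + w + w * w) := by ring
    _ = y * (1 + w + w⁻¹) + y⁻¹ * (1 + w + w⁻¹) := by rw [e6, e7]; ring
    _ = 0 := by rw [e5]; ring

/-- Lower levels. -/
theorem tr_low {z : L} {i c : ℕ} (hc : 2 ^ 3 ^ i + 1 = 3 ^ (i + 1) * c)
    (hz : z ^ 3 ^ (i + 1) = 1) : tr (3 ^ i) (z + z⁻¹) = z + z⁻¹ := by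
  have hz0 : z ≠ 0 := by
    rintro rfl
    rw [zero_pow (by positivity)] at hz
    exact zero_ne_one hz
  have e1 : z ^ 2 ^ 3 ^ i = z⁻¹ := by
    have h5 : z ^ (2 ^ 3 ^ i + 1) = 1 := by rw [hc, pow_mul, hz, one_pow]
    rw [pow_succ] at h5
    field_simp
    exact h5
  have e2 : (z⁻¹) ^ 2 ^ 3 ^ i = z := by rw [inv_pow, e1, inv_inv]
  have h2 : (2 : L) = 0 := two_eq_zero
  unfold tr
  rw [add_pow_char_pow, e1, e2, add_pow_char_pow, e1, e2]
  linear_combination (z + z⁻¹) * h2

theorem tr_one (m : ℕ) : tr m (1 : L) = 1 := by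
  have h2 : (2 : L) = 0 := two_eq_zero
  unfold tr
  rw [one_pow, one_pow]
  linear_combination h2

theorem eq_one_of_sq {y : L} (h : y + y⁻¹ = 0) (hy : y ≠ 0) : y = 1 := by
  have h2 : (2 : L) = 0 := two_eq_zero
  have h3 : (y - 1) ^ 2 = 0 := by
    field_simp at h
    linear_combination h - y * h2
  exact sub_eq_zero.1 (pow_eq_zero_iff (two_ne_zero)|>.1 h3)

theorem no_sum_aux {y z : L} {s t : ℕ} (hts : t ≤ s) (hy : y ^ 3 ^ (s + 1) = 1)
    (hy' : y ^ 3 ^ s ≠ 1) (hz : z ^ 3 ^ (t + 1) = 1) (hz' : z ^ 3 ^ t ≠ 1)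
    (h : y + y⁻¹ = z + z⁻¹ + 1) : False := by
  have h2 : (2 : L) = 0 := two_eq_zero
  have hy0 : y ≠ 0 := by
    rintro rfl
    rw [zero_pow (by positivity)] at hy
    exact zero_ne_one hy
  have hy1 : y ≠ 1 := by
    rintro rfl
    exact hy' (one_pow _)
  have hz1 : z ≠ 1 := by
    rintro rfl
    exact hz' (one_pow _)
  rcases s with _ | s
  · have ht : t = 0 := by omega
    subst ht
    have h3 := cube_root (w := y) (by simpa using hy) hy1
    have h4 := cube_root (w := z) (by simpa using hz) hz1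
    have : (1 : L) = 0 := by linear_combination h3 - h4 - h
    exact one_ne_zero this
  · obtain ⟨c, hc, h3⟩ := two_pow s
    have e1 := tr_top (y := y) hc h3 hy hy'
    rcases hts.lt_or_eq with h4 | rfl
    · have hz2 : z ^ 3 ^ (s + 1) = 1 := by
        have : 3 ^ (s + 1) = 3 ^ (t + 1) * 3 ^ (s - t) := by
          rw [← pow_add]
          congr 1
          omega
        rw [this, pow_mul, hz, one_pow]
      have e2 := tr_low hc hz2
      rw [h, tr_add, e2, tr_one, ← h] at e1
      exact hy1 (eq_one_of_sq e1 hy0)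
    · have e2 := tr_top (y := z) hc h3 hz hz'
      rw [h, tr_add, e2, tr_one, zero_add] at e1
      exact one_ne_zero e1

omit [CharP L 2] in
/-- The exact level. -/
theorem exists_level {y : L} {k : ℕ} (hy : y ^ 3 ^ k = 1) (hy1 : y ≠ 1) :
    ∃ s, y ^ 3 ^ (s + 1) = 1 ∧ y ^ 3 ^ s ≠ 1 := by
  induction k with
  | zero => exact absurd (by simpa using hy) hy1
  | succ k ih =>
    by_cases h : y ^ 3 ^ k = 1
    · exact ih h
    · exact ⟨k, hy, h⟩

theorem no_sum {y z : L} {k : ℕ} (hy : y ^ 3 ^ k = 1) (hy1 : y ≠ 1) (hz : z ^ 3 ^ k = 1)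
    (hz1 : z ≠ 1) (h : y + y⁻¹ = z + z⁻¹ + 1) : False := by
  obtain ⟨s, hs, hs'⟩ := exists_level hy hy1
  obtain ⟨t, ht, ht'⟩ := exists_level hz hz1
  rcases le_total t s with h1 | h1
  · exact no_sum_aux h1 hs hs' ht ht' h
  · have h2 : (2 : L) = 0 := two_eq_zero
    exact no_sum_aux h1 ht ht' hs hs' (by linear_combination (-1 : L) * h - h2)

end NumberTheory

section Polynomials

/-- The Fibonacci polynomials over `𝔽₂`. -/
noncomputable def fib : ℕ → (ZMod 2)[X]
  | 0 => 0
  | 1 => 1
  | k + 2 => X * fib (k + 1) + fib k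

theorem fib_add (m k : ℕ) : fib (m + k + 1) = fib (m + 1) * fib (k + 1) + fib m * fib k := by
  induction k using Nat.strong_induction_on generalizing m with
  | _ k ih =>
    match k with
    | 0 => simp [fib]
    | 1 =>
      have : fib (m + 1 + 1) = X * fib (m + 1) + fib m := rfl
      rw [this]
      simp [fib]
      ring
    | k + 2 =>
      have h1 := ih (k + 1) (by omega) m
      have h2 := ih k (by omega) m
      have e1 : fib (m + (k + 2) + 1) = X * fib (m + (k + 1) + 1) + fib (m + k + 1) := rfl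
      have e2 : fib (k + 2 + 1) = X * fib (k + 1 + 1) + fib (k + 1) := rfl
      have e3 : fib (k + 2) = X * fib (k + 1) + fib k := rfl
      rw [e1, h1, h2, e2, e3]
      ring

theorem fib_double (b : ℕ) : fib (2 * (b + 1)) = X * fib (b + 1) ^ 2 := by
  have h1 := fib_add (b + 1) b
  have e1 : fib (b + 1 + 1) = X * fib (b + 1) + fib b := rfl
  have e2 : b + 1 + b + 1 = 2 * (b + 1) := by ring
  rw [e2, e1] at h1
  rw [h1]
  have h2 : (2 : (ZMod 2)[X]) = 0 := by
    have : ((2 : ZMod 2) : ZMod 2) = 0 := by decide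
    rw [← map_ofNat C 2, this, map_zero]
  linear_combination fib (b + 1) * fib b * h2

/-- The algebraic closure. -/
abbrev L : Type := AlgebraicClosure (ZMod 2)

instance : CharP L 2 := inferInstance

theorem aeval_fib {y : L} (hy : y ≠ 0) (m : ℕ) :
    (y + y⁻¹) * aeval (y + y⁻¹) (fib m) = y ^ m + (y ^ m)⁻¹ := by
  have h2 : (2 : L) = 0 := two_eq_zero
  induction m using Nat.strong_induction_on with
  | _ m ih =>
    match m with
    | 0 =>
      simp only [fib, map_zero, mul_zero, pow_zero, inv_one]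
      linear_combination -h2
    | 1 => simp [fib]
    | m + 2 =>
      have h1 := ih (m + 1) (by omega)
      have h3 := ih m (by omega)
      have e1 : fib (m + 2) = X * fib (m + 1) + fib m := rfl
      rw [e1, map_add, map_mul, aeval_X]
      have e2 : (y + y⁻¹) * ((y + y⁻¹) * aeval (y + y⁻¹) (fib (m + 1)) + aeval (y + y⁻¹) (fib m)) =
        (y + y⁻¹) * ((y + y⁻¹) * aeval (y + y⁻¹) (fib (m + 1))) +
          (y + y⁻¹) * aeval (y + y⁻¹) (fib m) := by ring
      rw [e2, h1, h3]
      have e3 : (y ^ (m + 2))⁻¹ = (y ^ m)⁻¹ * y⁻¹ * y⁻¹ := by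
        rw [pow_succ, pow_succ, mul_inv, mul_inv]
      have e4 : (y ^ (m + 1))⁻¹ = (y ^ m)⁻¹ * y⁻¹ := by
        rw [pow_succ, mul_inv]
      have e5 : y * y⁻¹ = 1 := mul_inv_cancel₀ hy
      rw [e3, e4]
      linear_combination (y ^ m + (y ^ m)⁻¹) * e5 + (y ^ m + (y ^ m)⁻¹) * h2

theorem eval_zero_fib (m : ℕ) : aeval (0 : L) (fib (2 * m + 1)) = 1 := by
  induction m with
  | zero => simp [fib]
  | succ m ih =>
    have : fib (2 * (m + 1) + 1) = X * fib (2 * m + 1 + 1) + fib (2 * m + 1) := rfl
    rw [this, map_add, map_mul, aeval_X, zero_mul, zero_add, ih]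

/-- The roots of `fib (3 ^ k)`. -/
theorem root_fib {α : L} {k : ℕ} (h : aeval α (fib (3 ^ k)) = 0) :
    ∃ y : L, y ^ 3 ^ k = 1 ∧ y ≠ 1 ∧ α = y + y⁻¹ := by
  have h2 : (2 : L) = 0 := two_eq_zero
  obtain ⟨y, hy⟩ : ∃ y : L, y ^ 2 + α * y + 1 = 0 := by
    have hdeg : (X ^ 2 + C α * X + C 1 : L[X]).degree ≠ 0 := by
      have : (X ^ 2 + C α * X + C 1 : L[X]).degree = 2 := by
        have := degree_quadratic (R := L) (a := 1) (b := α) (c := 1) one_ne_zero
        simpa using this
      rw [this]
      norm_num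
    obtain ⟨y, hy⟩ := IsAlgClosed.exists_root _ hdeg
    refine ⟨y, ?_⟩
    simpa [IsRoot] using hy
  have hy0 : y ≠ 0 := by
    rintro rfl
    simp at hy
  have hα : α = y + y⁻¹ := by
    field_simp
    linear_combination hy - h2 * (y ^ 2 + 1)
  have h1 := aeval_fib hy0 (3 ^ k)
  rw [← hα, h, mul_zero] at h1
  have h3 : y ^ 3 ^ k = 1 := by
    apply eq_one_of_sq h1.symm
    exact pow_ne_zero _ hy0
  refine ⟨y, h3, ?_, hα⟩
  rintro rfl
  have h4 : α = 0 := by
    rw [hα]
    simp only [inv_one]
    linear_combination h2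
  obtain ⟨m, hm⟩ : ∃ m, 3 ^ k = 2 * m + 1 := by
    have : Odd (3 ^ k) := Odd.pow (by decide)
    exact this
  rw [h4, hm, eval_zero_fib] at h
  exact one_ne_zero h

theorem coprime_fib (k : ℕ) : IsCoprime (fib (3 ^ k)) ((fib (3 ^ k)).comp (X + 1)) := by
  rw [Polynomial.isCoprime_iff_aeval_ne_zero_of_isAlgClosed (ZMod 2) L]
  intro α
  by_contra hcon
  push Not at hcon
  obtain ⟨h1, h2⟩ := hcon
  rw [aeval_comp] at h2
  simp only [map_add, aeval_X, map_one] at h2
  obtain ⟨y, hy, hy1, hya⟩ := root_fib h1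
  obtain ⟨z, hz, hz1, hza⟩ := root_fib h2
  exact no_sum hz hz1 hy hy1 (by rw [← hza, ← hya])

/-- The combination used below. -/
theorem bezout (k : ℕ) : ∃ p q : (ZMod 2)[X], X * (X + 1) =
    p * fib (2 * 3 ^ k) + q * (fib (2 * 3 ^ k)).comp (X + 1) := by
  obtain ⟨b, hb⟩ : ∃ b, 3 ^ k = b + 1 := ⟨3 ^ k - 1, by
    have : 0 < 3 ^ k := by positivity
    omega⟩
  have h1 := (coprime_fib k).pow (m := 2) (n := 2)
  obtain ⟨p, q, hpq⟩ := h1
  refine ⟨(X + 1) * p, X * q, ?_⟩
  rw [hb] at hpq ⊢
  rw [fib_double, mul_comp, X_comp, pow_comp]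
  linear_combination (-(X * (X + 1)) : (ZMod 2)[X]) * hpq

end Polynomials

section Linear

variable {n : ℕ}

theorem char_two (a : ZMod 2) : a + a = 0 := by
  revert a
  decide

/-- A vector extended by zero, with positions starting at `1`. -/
def ext (v : Fin n → ZMod 2) (j : ℕ) : ZMod 2 :=
  if h : 1 ≤ j ∧ j ≤ n then v ⟨j - 1, by omega⟩ else 0

theorem ext_zero (v : Fin n → ZMod 2) : ext v 0 = 0 := by simp [ext]

theorem ext_succ (v : Fin n → ZMod 2) (i : Fin n) : ext v ((i : ℕ) + 1) = v i := by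
  have := i.2
  rw [ext, dif_pos ⟨by omega, by omega⟩]
  congr 1

theorem ext_large (v : Fin n → ZMod 2) {j : ℕ} (h : n < j) : ext v j = 0 := by
  rw [ext, dif_neg (by omega)]

open Classical in
/-- Adjacency in the path. -/
noncomputable def P (i i' : Fin n) : ZMod 2 :=
  if (i : ℕ) + 1 = i' ∨ (i' : ℕ) + 1 = i then 1 else 0

theorem sum_P (v : Fin n → ZMod 2) (i : Fin n) :
    ∑ i', P i i' * v i' = ext v i + ext v ((i : ℕ) + 2) := by
  classical
  have hi := i.2
  have h1 : ∀ i' : Fin n, P i i' * v i' =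
      (if (i' : ℕ) + 1 = i then v i' else 0) + (if (i : ℕ) + 1 = i' then v i' else 0) := by
    intro i'
    unfold P
    by_cases ha : (i : ℕ) + 1 = i'
    · have hb : ¬ (i' : ℕ) + 1 = i := by omega
      simp [ha, hb]
    · by_cases hb : (i' : ℕ) + 1 = i
      · simp [ha, hb]
      · simp [ha, hb]
  rw [Finset.sum_congr rfl fun i' _ => h1 i', Finset.sum_add_distrib]
  congr 1
  · by_cases h : 1 ≤ (i : ℕ)
    · rw [Finset.sum_eq_single (⟨(i : ℕ) - 1, by omega⟩ : Fin n)]
      · rw [if_pos (by simp only; omega), ext, dif_pos ⟨h, by omega⟩]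
      · intro b _ hb
        rw [if_neg]
        intro h2
        apply hb
        apply Fin.ext
        simp only
        omega
      · intro h
        exact absurd (Finset.mem_univ _) h
    · rw [ext, dif_neg (by omega)]
      refine Finset.sum_eq_zero fun b _ => ?_
      rw [if_neg (by omega)]
  · by_cases h : (i : ℕ) + 2 ≤ n
    · rw [Finset.sum_eq_single (⟨(i : ℕ) + 1, by omega⟩ : Fin n)]
      · rw [if_pos rfl, ext, dif_pos ⟨by omega, h⟩]
        congr 1
      · intro b _ hb
        rw [if_neg]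
        intro h2
        apply hb
        apply Fin.ext
        simp only
        omega
      · intro h
        exact absurd (Finset.mem_univ _) h
    · rw [ext, dif_neg (by omega)]
      refine Finset.sum_eq_zero fun b _ => ?_
      have := b.2
      rw [if_neg (by omega)]

/-- The adjacency operator of the path. -/
def T : (Fin n → ZMod 2) →ₗ[ZMod 2] (Fin n → ZMod 2) where
  toFun v i := ext v i + ext v ((i : ℕ) + 2)
  map_add' u v := by
    have h : ∀ j, ext (u + v) j = ext u j + ext v j := by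
      intro j
      unfold ext
      split_ifs <;> simp
    funext i
    simp only [h, Pi.add_apply]
    ring
  map_smul' c v := by
    have h : ∀ j, ext (c • v) j = c * ext v j := by
      intro j
      unfold ext
      split_ifs <;> simp
    funext i
    simp only [h, Pi.smul_apply, smul_eq_mul, RingHom.id_apply]
    ring

theorem T_apply (v : Fin n → ZMod 2) (i : Fin n) : T v i = ext v i + ext v ((i : ℕ) + 2) := rfl

theorem ext_T (v : Fin n → ZMod 2) {j : ℕ} (h1 : 1 ≤ j) (h2 : j ≤ n) :
    ext (T v) j = ext v (j - 1) + ext v (j + 1) := by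
  rw [ext, dif_pos ⟨h1, h2⟩, T_apply]
  congr 2
  simp only
  omega

/-- The matrix in terms of rows and columns. -/
theorem A_apply (X : Fin n × Fin n → ZMod 2) (i j : Fin n) :
    (A n).mulVecLin X (i, j) = X (i, j) + T (fun j' => X (i, j')) j + T (fun i' => X (i', j)) i := by
  classical
  rw [Matrix.mulVecLin_apply, Matrix.mulVec, dotProduct, Fintype.sum_prod_type]
  have h1 : ∀ i' j' : Fin n, A n (i, j) (i', j') * X (i', j') =
      (if i' = i then (if j' = j then X (i', j') else 0) else 0) +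
      (if i' = i then P j j' * X (i', j') else 0) +
      (if j' = j then P i i' * X (i', j') else 0) := by
    intro i' j'
    unfold A Adj P
    simp only [Prod.mk.injEq]
    by_cases hi : i' = i
    · subst hi
      by_cases hj : j' = j
      · subst hj
        simp
      · have hj' : ¬ j = j' := fun h => hj h.symm
        simp [hj, hj']
    · have hi' : ¬ i = i' := fun h => hi h.symm
      by_cases hj : j' = j
      · subst hj
        simp [hi, hi']
      · have hj' : ¬ j = j' := fun h => hj h.symm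
        simp [hi, hi', hj, hj']
  rw [Finset.sum_congr rfl fun i' _ => Finset.sum_congr rfl fun j' _ => h1 i' j']
  simp only [Finset.sum_add_distrib]
  congr 1
  · congr 1
    · rw [Finset.sum_eq_single i, Finset.sum_eq_single j]
      · simp
      · intro b _ hb
        simp [hb]
      · intro h
        exact absurd (Finset.mem_univ _) h
      · intro b _ hb
        simp [hb]
      · intro h
        exact absurd (Finset.mem_univ _) h
    · rw [Finset.sum_eq_single i]
      · rw [T_apply, ← sum_P]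
        simp
      · intro b _ hb
        simp [hb]
      · intro h
        exact absurd (Finset.mem_univ _) h
  · rw [T_apply, ← sum_P]
    refine Finset.sum_congr rfl fun i' _ => ?_
    rw [Finset.sum_eq_single j]
    · simp
    · intro b _ hb
      simp [hb]
    · intro h
      exact absurd (Finset.mem_univ _) h

/-- The rows of a configuration, with positions starting at `1`. -/
def row (X : Fin n × Fin n → ZMod 2) (i : ℕ) : Fin n → ZMod 2 :=
  fun j => ext (fun i' => X (i', j)) i

theorem row_zero (X : Fin n × Fin n → ZMod 2) : row X 0 = 0 := by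
  funext j
  exact ext_zero _

theorem row_rec {X : Fin n × Fin n → ZMod 2} (hX : (A n).mulVecLin X = 0) {i : ℕ} (h1 : 1 ≤ i)
    (h2 : i ≤ n) : row X (i + 1) = row X i + T (row X i) + row X (i - 1) := by
  funext j
  have h3 := congrFun hX (⟨i - 1, by omega⟩, j)
  rw [A_apply] at h3
  have e1 : T (fun i' => X (i', j)) ⟨i - 1, by omega⟩ = row X (i - 1) j + row X (i + 1) j := by
    rw [T_apply]
    simp only [row]
    congr 2
    omega
  have e2 : row X i = fun j' => X (⟨i - 1, by omega⟩, j') := by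
    funext j'
    rw [row, ext, dif_pos ⟨h1, h2⟩]
  rw [e1] at h3
  simp only [Pi.add_apply, Pi.zero_apply] at h3 ⊢
  rw [e2]
  have h4 := char_two (row X (i + 1) j)
  linear_combination h4 - h3

/-- The rows are obtained from the first one by Fibonacci polynomials. -/
theorem row_eq {X : Fin n × Fin n → ZMod 2} (hX : (A n).mulVecLin X = 0) (i : ℕ)
    (hi : i ≤ n + 1) : row X i = aeval (T + 1 : Module.End (ZMod 2) (Fin n → ZMod 2)) (fib i)
      (row X 1) := by
  induction i using Nat.strong_induction_on with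
  | _ i ih =>
    match i with
    | 0 => simp [fib, row_zero]
    | 1 => simp [fib]
    | i + 2 =>
      have h1 := ih (i + 1) (by omega) (by omega)
      have h2 := ih i (by omega) (by omega)
      have e1 : fib (i + 2) = Polynomial.X * fib (i + 1) + fib i := rfl
      rw [row_rec hX (i := i + 1) (by omega) (by omega), e1, map_add, map_mul, aeval_X,
        LinearMap.add_apply, Module.End.mul_apply, ← h1, Nat.add_sub_cancel, ← h2,
        LinearMap.add_apply, Module.End.one_apply]
      abel

/-- The standard vectors, with positions starting at `1`. -/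
def E (n k : ℕ) : Fin n → ZMod 2 := fun j => if (j : ℕ) + 1 = k then 1 else 0

theorem ext_E (k p : ℕ) : ext (E n k) p = if p = k ∧ 1 ≤ p ∧ p ≤ n then 1 else 0 := by
  unfold ext E
  by_cases h : 1 ≤ p ∧ p ≤ n
  · rw [dif_pos h]
    simp only
    have : p - 1 + 1 = p := by omega
    rw [this]
    by_cases h2 : p = k
    · rw [if_pos h2, if_pos ⟨h2, h⟩]
    · rw [if_neg h2, if_neg fun h3 => h2 h3.1]
  · rw [dif_neg h, if_neg fun h2 => h h2.2]

theorem T_E {k : ℕ} (h2 : k + 1 ≤ n) : T (E n (k + 1)) = E n k + E n (k + 2) := by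
  funext j
  have hj := j.2
  rw [T_apply, ext_E, ext_E, Pi.add_apply]
  unfold E
  rw [add_comm]
  congr 1
  · by_cases h : (j : ℕ) + 1 = k
    · rw [if_pos h, if_pos (by omega)]
    · rw [if_neg h, if_neg (by omega)]
  · by_cases h : (j : ℕ) + 1 = k + 2
    · rw [if_pos h, if_pos (by omega)]
    · rw [if_neg h, if_neg (by omega)]

theorem E_zero : E n 0 = 0 := by
  funext j
  simp [E]

theorem fib_E (k : ℕ) (hk : k ≤ n + 1) :
    aeval (T : Module.End (ZMod 2) (Fin n → ZMod 2)) (fib k) (E n 1) = E n k := by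
  induction k using Nat.strong_induction_on with
  | _ k ih =>
    match k with
    | 0 => simp [fib, E_zero]
    | 1 => simp [fib]
    | k + 2 =>
      have h1 := ih (k + 1) (by omega) (by omega)
      have h2 := ih k (by omega) (by omega)
      have e1 : fib (k + 2) = Polynomial.X * fib (k + 1) + fib k := rfl
      rw [e1, map_add, map_mul, aeval_X, LinearMap.add_apply, Module.End.mul_apply, h1, h2,
        T_E (by omega)]
      funext j
      simp only [Pi.add_apply]
      have := char_two (E n k j)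
      linear_combination this

theorem fib_T : aeval (T : Module.End (ZMod 2) (Fin n → ZMod 2)) (fib (n + 1)) = 0 := by
  have h1 : aeval (T : Module.End (ZMod 2) (Fin n → ZMod 2)) (fib (n + 1)) (E n 1) = 0 := by
    rw [fib_E _ le_rfl]
    funext j
    have := j.2
    simp only [E, Pi.zero_apply]
    rw [if_neg (by omega)]
  have h2 : ∀ k ≤ n, aeval (T : Module.End (ZMod 2) (Fin n → ZMod 2)) (fib (n + 1)) (E n k) = 0 := by
    intro k hk
    rw [← fib_E k (by omega), ← Module.End.mul_apply, ← map_mul, mul_comm, map_mul,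
      Module.End.mul_apply, h1, map_zero]
  apply LinearMap.pi_ext'
  intro i
  apply LinearMap.ext_ring
  have h3 : (LinearMap.single (ZMod 2) (fun _ : Fin n => ZMod 2) i) 1 = E n ((i : ℕ) + 1) := by
    funext j
    simp only [LinearMap.single_apply, E]
    by_cases h : j = i
    · subst h
      simp
    · rw [Pi.single_eq_of_ne h, if_neg]
      intro h4
      apply h
      apply Fin.ext
      omega
  rw [LinearMap.comp_apply, h3, h2 _ (by have := i.2; omega)]
  simp

/-- The first row of a kernel element is killed by `T (T + 1)`. -/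
theorem first_row {k : ℕ} (hn : n + 1 = 2 * 3 ^ k) {X : Fin n × Fin n → ZMod 2}
    (hX : (A n).mulVecLin X = 0) : T (T (row X 1) + row X 1) = 0 := by
  obtain ⟨p, q, hpq⟩ := bezout k
  rw [← hn] at hpq
  have h1 := congrArg (fun r => aeval (T : Module.End (ZMod 2) (Fin n → ZMod 2)) r (row X 1)) hpq
  simp only [map_mul, map_add, aeval_X, map_one, aeval_comp, fib_T, mul_zero, zero_add,
    Module.End.mul_apply, LinearMap.add_apply, Module.End.one_apply] at h1
  have h2 : aeval (T + 1 : Module.End (ZMod 2) (Fin n → ZMod 2)) (fib (n + 1)) (row X 1) = 0 := by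
    rw [← row_eq hX _ le_rfl]
    funext j
    exact ext_large _ (by omega)
  rw [h2, map_zero] at h1
  rw [← h1]
  simp

/-- A vector of a second order recurrence with zero start vanishes. -/
theorem eq_zero_of_rec {v : Fin n → ZMod 2} (c : ZMod 2) (h1 : ext v 1 = 0)
    (h : ∀ j, 1 ≤ j → j ≤ n → ext v (j + 1) = c * ext v j + ext v (j - 1)) : v = 0 := by
  have key : ∀ j, j ≤ n + 1 → ext v j = 0 := by
    intro j
    induction j using Nat.strong_induction_on with
    | _ j ih =>
      intro hj
      match j with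
      | 0 => exact ext_zero v
      | 1 => exact h1
      | j + 2 =>
        have h2 := h (j + 1) (by omega) (by omega)
        rw [ih (j + 1) (by omega) (by omega), Nat.add_sub_cancel, ih j (by omega) (by omega)] at h2
        rw [h2]
        ring
  funext i
  rw [← ext_succ v i]
  exact key _ (by have := i.2; omega)

theorem ext_add (u v : Fin n → ZMod 2) (j : ℕ) : ext (u + v) j = ext u j + ext v j := by
  unfold ext
  split_ifs <;> simp

theorem ext_zero' (j : ℕ) : ext (0 : Fin n → ZMod 2) j = 0 := by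
  unfold ext
  split_ifs <;> simp

/-- The upper bound. -/
theorem upper {k : ℕ} (hn : n + 1 = 2 * 3 ^ k) : d n ≤ 2 := by
  let φ : LinearMap.ker (A n).mulVecLin →ₗ[ZMod 2] (ZMod 2 × ZMod 2) :=
    { toFun := fun X => (ext (T (row (X : Fin n × Fin n → ZMod 2) 1)) 1,
        ext (T (row (X : Fin n × Fin n → ZMod 2) 1) + row (X : Fin n × Fin n → ZMod 2) 1) 1)
      map_add' := by
        intro X Y
        have h : row ((X : Fin n × Fin n → ZMod 2) + (Y : Fin n × Fin n → ZMod 2)) 1 =
            row (X : Fin n × Fin n → ZMod 2) 1 + row (Y : Fin n × Fin n → ZMod 2) 1 := by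
          funext j
          exact ext_add _ _ _
        simp only [Submodule.coe_add, h, map_add, ext_add, Prod.mk_add_mk]
        congr 1
        ring
      map_smul' := by
        intro c X
        have hc : ∀ v : Fin n → ZMod 2, ∀ j, ext (c • v) j = c * ext v j := by
          intro v j
          unfold ext
          split_ifs <;> simp
        have h : row (c • (X : Fin n × Fin n → ZMod 2)) 1 =
            c • row (X : Fin n × Fin n → ZMod 2) 1 := by
          funext j
          exact hc _ _
        simp only [Submodule.coe_smul, h, map_smul, ext_add, hc, RingHom.id_apply, Prod.smul_mk,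
          smul_eq_mul]
        congr 1
        ring }
  have hφ : Function.Injective φ := by
    rw [← LinearMap.ker_eq_bot, LinearMap.ker_eq_bot']
    intro X hX
    have hA : (A n).mulVecLin (X : Fin n × Fin n → ZMod 2) = 0 := X.2
    have hX1 : ext (T (row (X : Fin n × Fin n → ZMod 2) 1)) 1 = 0 := congrArg Prod.fst hX
    have hX2 : ext (T (row (X : Fin n × Fin n → ZMod 2) 1) + row (X : Fin n × Fin n → ZMod 2) 1) 1 =
      0 := congrArg Prod.snd hX
    have hT := first_row hn hA
    set r := row (X : Fin n × Fin n → ZMod 2) 1 with hr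
    -- the first component
    have ha : T r + r = 0 := by
      refine eq_zero_of_rec 0 hX2 fun j h1 h2 => ?_
      have h3 := congrArg (fun v => ext v j) hT
      simp only [ext_T _ h1 h2, ext_zero'] at h3
      have h4 := char_two (ext (T r + r) (j - 1))
      linear_combination h3 - h4
    have hb : T r = 0 := by
      refine eq_zero_of_rec 1 hX1 fun j h1 h2 => ?_
      have h3 : T (T r) + T r = 0 := by rw [← map_add]; exact hT
      have h4 := congrArg (fun v => ext v j) h3
      simp only [ext_add, ext_T _ h1 h2, ext_zero'] at h4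
      rw [← ext_T r h1 h2] at h4
      have h5 := char_two (ext (T r) (j - 1))
      have h6 := char_two (ext (T r) j)
      linear_combination h4 - h5 - h6
    have hr0 : r = 0 := by
      rw [hb, zero_add] at ha
      exact ha
    apply Subtype.ext
    funext ⟨i, j⟩
    have h1 := row_eq hA ((i : ℕ) + 1) (by have := i.2; omega)
    rw [← hr, hr0, map_zero] at h1
    have h2 := congrFun h1 j
    rw [row, ext_succ] at h2
    exact h2
  have h1 := LinearMap.finrank_le_finrank_of_injective hφ
  have h2 : Module.finrank (ZMod 2) (ZMod 2 × ZMod 2) = 2 := by simp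
  rw [h2] at h1
  exact h1

/-- Two kernel elements. -/
theorem lower {k : ℕ} (hn : n + 1 = 2 * 3 ^ (k + 1)) : 2 ≤ d n := by
  have h3 : (n + 1) % 3 = 0 := by
    rw [hn, pow_succ]
    omega
  have h2 : (n + 1) % 2 = 0 := by
    rw [hn]
    omega
  have hn5 : 5 ≤ n := by
    have : 3 ^ 1 ≤ 3 ^ (k + 1) := Nat.pow_le_pow_right (by norm_num) (by omega)
    omega
  let a : Fin n → ZMod 2 := fun i => if ((i : ℕ) + 1) % 2 = 1 then 1 else 0
  let b : Fin n → ZMod 2 := fun i => if ((i : ℕ) + 1) % 3 = 0 then 0 else 1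
  have ea : ∀ p, ext a p = if p % 2 = 1 ∧ p ≤ n then 1 else 0 := by
    intro p
    unfold ext
    by_cases h : 1 ≤ p ∧ p ≤ n
    · rw [dif_pos h]
      simp only [a]
      rw [show p - 1 + 1 = p by omega]
      by_cases h4 : p % 2 = 1
      · rw [if_pos h4, if_pos ⟨h4, h.2⟩]
      · rw [if_neg h4, if_neg fun h5 => h4 h5.1]
    · rw [dif_neg h, if_neg]
      omega
  have eb : ∀ p, ext b p = if p % 3 ≠ 0 ∧ p ≤ n then 1 else 0 := by
    intro p
    unfold ext
    by_cases h : 1 ≤ p ∧ p ≤ n
    · rw [dif_pos h]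
      simp only [b]
      rw [show p - 1 + 1 = p by omega]
      by_cases h4 : p % 3 = 0
      · rw [if_pos h4, if_neg fun h5 => h5.1 h4]
      · rw [if_neg h4, if_pos ⟨h4, h.2⟩]
    · rw [dif_neg h, if_neg]
      omega
  have Ta : T a = 0 := by
    funext i
    have hi := i.2
    rw [T_apply, ea, ea, Pi.zero_apply]
    by_cases h4 : (i : ℕ) % 2 = 1
    · rw [if_pos (by omega), if_pos (by omega)]
      decide
    · rw [if_neg (by omega), if_neg (by omega)]
      decide
  have Tb : T b = b := by
    funext i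
    have hi := i.2
    rw [T_apply, eb, eb]
    simp only [b]
    rcases (by omega : (i : ℕ) % 3 = 0 ∨ (i : ℕ) % 3 = 1 ∨ (i : ℕ) % 3 = 2) with h4 | h4 | h4
    · rw [if_neg (by omega), if_pos (by omega), if_neg (by omega)]
      decide
    · rw [if_pos (by omega), if_neg (by omega), if_neg (by omega)]
      decide
    · rw [if_pos (by omega), if_pos (by omega), if_pos (by omega)]
      decide
  have hker : ∀ u v : Fin n → ZMod 2, T u = 0 → T v = v → ∀ s : ZMod 2,
      (A n).mulVecLin (fun c => s * (u c.1 * v c.2)) = 0 ∧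
      (A n).mulVecLin (fun c => s * (v c.1 * u c.2)) = 0 := by
    intro u v hu hv s
    constructor
    · funext ⟨i, j⟩
      rw [A_apply]
      have e1 : (fun j' => s * (u i * v j')) = (s * u i) • v := by
        funext j'
        simp only [Pi.smul_apply, smul_eq_mul]
        ring
      have e2 : (fun i' => s * (u i' * v j)) = (s * v j) • u := by
        funext i'
        simp only [Pi.smul_apply, smul_eq_mul]
        ring
      simp only [e1, e2, map_smul, hu, hv, Pi.zero_apply, Pi.smul_apply, smul_eq_mul]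
      have := char_two (s * (u i * v j))
      linear_combination this
    · funext ⟨i, j⟩
      rw [A_apply]
      have e1 : (fun j' => s * (v i * u j')) = (s * v i) • u := by
        funext j'
        simp only [Pi.smul_apply, smul_eq_mul]
        ring
      have e2 : (fun i' => s * (v i' * u j)) = (s * u j) • v := by
        funext i'
        simp only [Pi.smul_apply, smul_eq_mul]
        ring
      simp only [e1, e2, map_smul, hu, hv, Pi.zero_apply, Pi.smul_apply, smul_eq_mul]
      have := char_two (s * (v i * u j))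
      linear_combination this
  let ψ : (ZMod 2 × ZMod 2) →ₗ[ZMod 2] LinearMap.ker (A n).mulVecLin :=
    { toFun := fun s => ⟨(fun c => s.1 * (a c.1 * b c.2)) + (fun c => s.2 * (b c.1 * a c.2)), by
        rw [LinearMap.mem_ker, map_add, (hker a b Ta Tb s.1).1, (hker a b Ta Tb s.2).2, add_zero]⟩
      map_add' := by
        intro s t
        apply Subtype.ext
        funext c
        simp only [Prod.fst_add, Prod.snd_add, Pi.add_apply, Submodule.coe_add]
        ring
      map_smul' := by
        intro r s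
        apply Subtype.ext
        funext c
        simp only [Prod.smul_fst, Prod.smul_snd, smul_eq_mul, Pi.add_apply, Submodule.coe_smul,
          Pi.smul_apply, RingHom.id_apply]
        ring }
  have hψ : Function.Injective ψ := by
    rw [← LinearMap.ker_eq_bot, LinearMap.ker_eq_bot']
    intro s hs
    have h4 : ∀ c : Fin n × Fin n, s.1 * (a c.1 * b c.2) + s.2 * (b c.1 * a c.2) = 0 := by
      intro c
      have := congrArg (fun X : LinearMap.ker (A n).mulVecLin => (X : Fin n × Fin n → ZMod 2) c) hs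
      exact this
    have h5 := h4 (⟨0, by omega⟩, ⟨1, by omega⟩)
    have h6 := h4 (⟨1, by omega⟩, ⟨0, by omega⟩)
    simp [a, b] at h5 h6
    exact Prod.ext h5 h6
  have h4 := LinearMap.finrank_le_finrank_of_injective hψ
  have h5 : Module.finrank (ZMod 2) (ZMod 2 × ZMod 2) = 2 := by simp
  rw [h5] at h4
  exact h4

end Linear

/-- **There are infinitely many Lights Out grids of nullity exactly two.** -/
theorem result : (∀ k : ℕ, 1 ≤ k → d (2 * 3 ^ k - 1) = 2) ∧ {n : ℕ | 0 < n ∧ d n = 2}.Infinite := by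
  have h1 : ∀ k : ℕ, 1 ≤ k → d (2 * 3 ^ k - 1) = 2 := by
    intro k hk
    obtain ⟨k, rfl⟩ : ∃ k', k = k' + 1 := ⟨k - 1, by omega⟩
    have h3 : 0 < 3 ^ (k + 1) := by positivity
    have hn : 2 * 3 ^ (k + 1) - 1 + 1 = 2 * 3 ^ (k + 1) := by omega
    exact le_antisymm (upper hn) (lower hn)
  refine ⟨h1, ?_⟩
  refine Set.infinite_of_injective_forall_mem (f := fun k : ℕ => 2 * 3 ^ (k + 1) - 1) ?_ ?_
  · intro a b hab
    have ha : 0 < 3 ^ (a + 1) := by positivity
    have hb : 0 < 3 ^ (b + 1) := by positivity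
    have hab' : 2 * 3 ^ (a + 1) - 1 = 2 * 3 ^ (b + 1) - 1 := hab
    have h2 : 3 ^ (a + 1) = 3 ^ (b + 1) := by omega
    have := Nat.pow_right_injective (le_refl 2 |>.trans (by norm_num : 2 ≤ 3)) h2
    omega
  · intro k
    have h3 : 0 < 3 ^ (k + 1) := by positivity
    exact ⟨by change 0 < 2 * 3 ^ (k + 1) - 1; omega, h1 (k + 1) (by omega)⟩

end Pool.Agent.Results.MP_222d4b_co.NullityTwo
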